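import Mathlib
import Pool.Agent.VarDeg.Defs
import Pool.Agent.VarDeg.LowerMain
import Pool.Agent.VarDeg.UpperMain

set_option autoImplicit false

open Pool.Agent.VarDeg

namespace Pool.Agent.Results.MP_6b192e_al.VariantMinDegree

/-- There are two rank-two maps of a `1024`-element set whose variants have different minimum
degrees. -/
theorem result :
    ∃ a b : Fin 1024 → Fin 1024,
      (Finset.univ.image a).card = 2 ∧ (Finset.univ.image b).card = 2 ∧
      ∃ k l : ℕ, IsMinDegree 1024 a k ∧ IsMinDegree 1024 b l ∧ k ≤ 1564 ∧ 1569 ≤ l := by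
  refine ⟨unbalanced, balanced, ?_, ?_, ?_⟩
  · have : Finset.univ.image unbalanced = {0, 1} := by
      ext p
      simp only [Finset.mem_image, Finset.mem_univ, true_and, Finset.mem_insert,
        Finset.mem_singleton, unbalanced]
      constructor
      · rintro ⟨q, rfl⟩
        split_ifs <;> simp
      · rintro (rfl | rfl)
        · exact ⟨0, by simp⟩
        · exact ⟨1, by simp⟩
    rw [this]
    exact Finset.card_pair (by simp)
  · have : Finset.univ.image balanced = {0, 1} := by
      ext p
      simp only [Finset.mem_image, Finset.mem_univ, true_and, Finset.mem_insert,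
        Finset.mem_singleton, balanced]
      constructor
      · rintro ⟨q, rfl⟩
        split_ifs <;> simp
      · rintro (rfl | rfl)
        · exact ⟨0, by simp⟩
        · exact ⟨⟨512, by norm_num⟩, by simp⟩
    rw [this]
    exact Finset.card_pair (by simp)
  · have ha : 1564 ∈ {m : ℕ | 1 ≤ m ∧ VariantEmbeds 1024 unbalanced m} :=
      ⟨by norm_num, upper_bound⟩
    have hb : 1024 + 1024 ∈ {m : ℕ | 1 ≤ m ∧ VariantEmbeds 1024 balanced m} :=
      ⟨by norm_num, embeds_double _ _⟩
    refine ⟨_, _, ⟨Nat.sInf_mem ⟨_, ha⟩, fun _ h => Nat.sInf_le h⟩,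
      ⟨Nat.sInf_mem ⟨_, hb⟩, fun _ h => Nat.sInf_le h⟩, Nat.sInf_le ha, ?_⟩
    exact lower_bound (Nat.sInf_mem (⟨_, hb⟩ : {m : ℕ | 1 ≤ m ∧
      VariantEmbeds 1024 balanced m}.Nonempty)).2

end Pool.Agent.Results.MP_6b192e_al.VariantMinDegree
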